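import Mathlib
import Pool.Agent.Y642.RN.A
import Pool.Agent.U881.LF.Main

set_option autoImplicit false

/-!
# Cographic tangential 2-blocks of graphs without an induced linear forest (MP_aa6b05_co)

Let `F` be a linear forest with nine vertices and at least four edges, two of them at the same
vertex, which does not contain `2P_3 + P_2` as an induced subgraph (there are 17 of them: `P_9`,
`P_8 + P_1`, `P_7 + 2P_1`, `P_6 + P_2 + P_1`, `P_6 + 3P_1`, `P_5 + P_4`, `P_5 + P_3 + P_1`,
`P_5 + 2P_2`, `P_5 + P_2 + 2P_1`, `P_5 + 4P_1`, `2P_4 + P_1`, `P_4 + P_3 + 2P_1`,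
`P_4 + 2P_2 + P_1`, `P_4 + P_2 + 3P_1`, `2P_3 + 3P_1`, `P_3 + 3P_2`, `P_3 + 2P_2 + 2P_1`).
Tutte's tangential 2-block conjecture holds for the cographic matroids of the graphs which have no
induced copy of `F`: every 2-block over GF(2) of this kind has a RESTRICTION `M*(P₁₀)` (no
contraction is needed), and if it is tangential it is `M*(P₁₀)`.

The graph theoretic input is the theorem (`U881/LF`, handed in for MP_e6539c_co, LinearForests) that
every bridgeless multigraph without induced copies of `F` has a nowhere-zero 4-flow or a component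
which can be contracted to the Petersen graph; the translation to blocks is the one of the starting
files (`TH676/Blk`, `Y642/RN`).
-/

namespace Pool.Agent.Results.MP_aa6b05_co.LinearForests

/-- The incidence vector of the vertex `v` over GF(2): the coordinate of an edge is the number of
its ends which are `v`, modulo 2 (so loops give 0). -/
def star {V E : Type} [DecidableEq V] (src dst : E → V) (v : V) : E → ZMod 2 :=
  fun e => (if src e = v then 1 else 0) + (if dst e = v then 1 else 0)

/-- The vectors `vec e` represent the cographic matroid of the graph: the linear relations between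
them are exactly the elements of the cut space, which is spanned by the incidence vectors. -/
def RepresentsCographic {V E : Type} [DecidableEq V] [Fintype E] (src dst : E → V) {n : ℕ}
    (vec : E → Fin n → ZMod 2) : Prop :=
  ∀ x : E → ZMod 2, ∑ e, x e • vec e = 0 ↔
    x ∈ Submodule.span (ZMod 2) (Set.range (star src dst))

/-- The graph has an induced copy of `F`: nine different vertices such that the `i`-th one and the
`j`-th one are joined by an edge if and only if `i` and `j` are adjacent in `F`. -/
def HasInducedCopy {V E : Type} (F : SimpleGraph (Fin 9)) (src dst : E → V) : Prop :=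
  ∃ p : Fin 9 → V, Function.Injective p ∧ ∀ i j, i ≠ j →
    ((∃ e, (src e = p i ∧ dst e = p j) ∨ (src e = p j ∧ dst e = p i)) ↔ F.Adj i j)

/-- The simple matroid represented by the set `S` of vectors over GF(2) is a 2-block: `S` has no
zero vector and no linear map to the plane over GF(2) is nonzero on all of `S`. -/
def IsTwoBlock {n : ℕ} (S : Set (Fin n → ZMod 2)) : Prop :=
  (0 : Fin n → ZMod 2) ∉ S ∧
    ¬ ∃ L : (Fin n → ZMod 2) →ₗ[ZMod 2] (Fin 2 → ZMod 2), ∀ s ∈ S, L s ≠ 0

/-- `S` represents a tangential 2-block: it is a 2-block, and no proper minor without loops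
(contract `C`, keep `T`) is a 2-block. This is the hypothesis of the frozen statement S10691. -/
def IsTangential {n : ℕ} (S : Set (Fin n → ZMod 2)) : Prop :=
  IsTwoBlock S ∧
    ∀ C T : Set (Fin n → ZMod 2), C ⊆ S → T ⊆ S → T ≠ S →
      (∀ t ∈ T, t ∉ Submodule.span (ZMod 2) C) →
      ∃ L : (Fin n → ZMod 2) →ₗ[ZMod 2] (Fin 2 → ZMod 2),
        (∀ c ∈ C, L c = 0) ∧ ∀ t ∈ T, L t ≠ 0

/-- The cut space of the Petersen graph: vertices `0, ..., 9`, edges `0, ..., 14`. -/
def petersenCuts : Submodule (ZMod 2) (Fin 15 → ZMod 2) :=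
  Submodule.span (ZMod 2) (Set.range (fun v : Fin 10 => fun k : Fin 15 =>
    if (![0,1,2,3,4,5,6,7,8,9,0,1,2,3,4] : Fin 15 → Fin 10) k = v ∨
       (![1,2,3,4,0,7,8,9,5,6,5,6,7,8,9] : Fin 15 → Fin 10) k = v
    then (1 : ZMod 2) else 0))

/-- Let `F` be a linear forest on the vertices `0, ..., 8` (a spanning subgraph of the path
`0, 1, ..., 8`) with at least four edges, two of which have a common end, which has no induced
subgraph `2P_3 + P_2` (with the vertices `q 0, ..., q 7` and the edges `{q i, q (i + 1)}`,
`i ∉ {2, 5}`).  Let `S` be a set of vectors over GF(2) which represents the cographic matroid of a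
graph (parallel elements are represented by the same vector).  Suppose that the graph has no induced
copy of `F`.  If `S` is a 2-block then `S` contains 15 different vectors which represent the
cographic matroid of the Petersen graph; if `S` is a tangential 2-block then `S` is the cographic
matroid of the Petersen graph, in the form of the frozen statement S10691. -/
theorem result (F : SimpleGraph (Fin 9)) (hF : F ≤ SimpleGraph.pathGraph 9)
    (h4 : 4 ≤ F.edgeSet.ncard) (h3 : ∃ a b c, a ≠ c ∧ F.Adj a b ∧ F.Adj b c)
    (hq : ¬ ∃ q : Fin 8 → Fin 9, Function.Injective q ∧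
      ∀ i j, i < j → (F.Adj (q i) (q j) ↔ (i.val + 1 = j.val ∧ i.val ≠ 2 ∧ i.val ≠ 5))) :
    ∀ (n : ℕ) (S : Set (Fin n → ZMod 2)) (V E : Type) [Fintype V] [DecidableEq V] [Fintype E]
      [DecidableEq E] (src dst : E → V) (vec : E → Fin n → ZMod 2),
      RepresentsCographic src dst vec → Set.range vec = S →
      ¬ HasInducedCopy F src dst →
      (IsTwoBlock S → ∃ t : Fin 15 → Fin n → ZMod 2,
        Set.range t ⊆ S ∧ Function.Injective t ∧
        ∀ x : Fin 15 → ZMod 2, ∑ k, x k • t k = 0 ↔ x ∈ petersenCuts) ∧
      (IsTangential S → ∃ ψ : (Fin 15 → ZMod 2) →ₗ[ZMod 2] (Fin n → ZMod 2),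
        LinearMap.ker ψ = petersenCuts ∧
        ⇑ψ '' Set.range (fun k : Fin 15 => (Pi.single k (1 : ZMod 2) : Fin 15 → ZMod 2)) = S) := by
  classical
  intro n S V E _ _ _ _ src dst vec hv hr hT
  have hv' : TH676.Blk.RepCo src dst vec := hv
  have hPC : TH676.Blk.PC = petersenCuts := rfl
  have main : IsTwoBlock S → ∃ t : Fin 15 → Fin n → ZMod 2,
        Set.range t ⊆ S ∧ Function.Injective t ∧
        ∀ x : Fin 15 → ZMod 2, ∑ k, x k • t k = 0 ↔ x ∈ TH676.Blk.PC := by
    rintro ⟨hz, hL⟩
    have h0 : ∀ e, vec e ≠ 0 := by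
      intro e he
      apply hz
      rw [← hr, ← he]
      exact ⟨e, rfl⟩
    have hbr := hv'.br h0
    have hN1 := Y642.RN.n1_of hbr
    have hnz : ¬ TH499.TF.NZ src dst := by
      intro h
      obtain ⟨L, hL'⟩ := hv'.map h
      apply hL
      refine ⟨L, fun s hs => ?_⟩
      rw [← hr] at hs
      obtain ⟨e, rfl⟩ := hs
      exact hL' e
    have hPM : TH362.Multi.ContractsToPetersen src dst := by
      rcases U881.LF.main9 src dst hN1 F hF h4 h3 hq hT with h | h
      · exact absurd (Y642.RN.nz_of h) hnz
      · exact TH362.TF.contracts src dst hN1 h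
    obtain ⟨ed, hx⟩ := Y642.RN.restr hv' hPM
    refine ⟨fun k => vec (ed k), ?_, ?_, hx⟩
    · rintro _ ⟨k, rfl⟩
      rw [← hr]
      exact ⟨ed k, rfl⟩
    · intro k l hkl
      by_contra hne
      apply TH676.Blk.pair_not_mem k l hne
      rw [← hx]
      simp only [Pi.add_apply, add_smul]
      rw [Finset.sum_add_distrib]
      simp only [Pi.single_apply, ite_smul, one_smul, zero_smul, Finset.sum_ite_eq',
        Finset.mem_univ, if_true]
      have h3 : vec (ed k) = vec (ed l) := hkl
      rw [h3]
      funext i
      exact CharTwo.add_self_eq_zero _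
  refine ⟨main, ?_⟩
  rintro ⟨h2, htan⟩
  obtain ⟨t, ht, hinj, hx⟩ := main h2
  have hsum1 : ∀ k, ∑ m, (Pi.single k 1 : Fin 15 → ZMod 2) m • t m = t k := by
    intro k
    simp only [Pi.single_apply, ite_smul, one_smul, zero_smul, Finset.sum_ite_eq',
      Finset.mem_univ, if_true]
  have hsp : ∀ k, t k ∉ Submodule.span (ZMod 2) (∅ : Set (Fin n → ZMod 2)) := by
    intro k hk
    rw [Submodule.span_empty, Submodule.mem_bot] at hk
    apply TH676.Blk.single_not_mem k
    rw [← hx, hsum1]
    exact hk
  have hTS : Set.range t = S := by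
    by_contra hne
    obtain ⟨L, _, hL2⟩ := htan ∅ (Set.range t) (Set.empty_subset _) ht hne (by
      rintro _ ⟨k, rfl⟩
      exact hsp k)
    obtain ⟨k, hk⟩ := TH676.Blk.pet_flow (fun k => ((L (t k)) 0, (L (t k)) 1)) (by
      intro x hxP
      have h4 : L (∑ k, x k • t k) = 0 := by
        rw [(hx x).mpr hxP, map_zero]
      rw [map_sum] at h4
      simp only [map_smul] at h4
      have h5 := congrFun h4 0
      have h6 := congrFun h4 1
      rw [Finset.sum_apply] at h5 h6
      refine Prod.ext ?_ ?_
      · rw [Prod.fst_sum]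
        exact h5
      · rw [Prod.snd_sum]
        exact h6)
    apply hL2 (t k) ⟨k, rfl⟩
    funext i
    fin_cases i
    · exact congrArg Prod.fst hk
    · exact congrArg Prod.snd hk
  refine ⟨Fintype.linearCombination (ZMod 2) t, ?_, ?_⟩
  · ext x
    rw [LinearMap.mem_ker, Fintype.linearCombination_apply, ← hPC, ← hx]
  · ext s
    rw [← hTS]
    constructor
    · rintro ⟨_, ⟨k, rfl⟩, rfl⟩
      refine ⟨k, ?_⟩
      rw [Fintype.linearCombination_apply]
      exact (hsum1 k).symm
    · rintro ⟨k, rfl⟩
      refine ⟨_, ⟨k, rfl⟩, ?_⟩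
      rw [Fintype.linearCombination_apply]
      exact hsum1 k

end Pool.Agent.Results.MP_aa6b05_co.LinearForests
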