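import Pool.Agent.R890.FF.Blk
import Pool.Agent.U875.TP.Class
import Pool.Agent.U605.DD.Main

/-!
# Tangential 2-blocks: graphs without wide spread sets (MP_aa6b05_co)

The cographic matroid of a graph which satisfies the condition `NoWideSpread` (below) is a 2-block only
if it contains the one of the Petersen graph as a restriction, and it is a tangential 2-block only if
it is the one of the Petersen graph.

For integers `d ≥ 4` and `r` the radius of a vertex is `r` if it has at least `d` neighbours, otherwise
zero.  A set of vertices is spread if the distance of any two of them is greater than the sum of the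
radii; it is wide if the distance of some two of them is greater than two plus the sum of the radii
and for some five of them the pairwise distances are greater than one plus the sum of the radii.  The
condition `NoWideSpread`: for some `d ≥ 4` and `r` every circuit of the underlying simple graph with at
most `2 r` vertices contains a vertex with fewer than `d` neighbours (for `r = 1` there is no such
circuit), and no spread set with at least `18 - 6 / (d / 2 - 1)` vertices (12 for `d = 4`, 15 for
`d = 6`, 18 for `d ≥ 16`) is wide.

For example, all vertices have at least four neighbours, and
* the diameter is at most four, or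
* there is a dominating set with at most eleven vertices, or
* there are fewer than sixty vertices, or
* of any five vertices two have distance at most three, or
* the underlying simple graph has no circuit with at most `2 r` vertices, and its diameter is at most
  `2 r + 2` or it has fewer than `12 (2 * 3 ^ r - 1)` vertices.

Proof.  Let `H` be a quotient of `G` without nowhere-zero 4-flow and without Petersen quotient such
that all proper quotients of `H` have a flow.  The starting library shows that `H` has no circuit of
length at most four, 18 vertices of odd degree with degree sum at most 66, at least twelve vertices of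
degree three, that `k ≥ 2` vertices of `H` span at most `2 k - 3` edges, and that five of any twelve
vertices are pairwise nonadjacent.  New here: two vertices of degree three have distance at least
three in `H` (if not, every vertex has at most three neighbours of degree three, and there are at most
ten vertices of degree three); and a class with fewer than `d` boundary edges all vertices of which
have at least `d` neighbours contains the ball with radius `r` around some vertex (a vertex with
greatest distance to the boundary: two of its neighbours have the same nearest boundary vertex, and
this gives a circuit with at most `2 r` vertices).  The centres of such balls in the classes with fewer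
than `d` boundary edges form a wide spread set of `G`.
So `G` has a nowhere-zero 4-flow, or ten classes of vertices form a Petersen graph
(`U875/TP`, `R890/FF`).
-/

set_option autoImplicit false

namespace Pool.Agent.Results.MP_aa6b05_co.SpreadSets

open Finset Pool.Agent.U875.TP
open Pool.Agent.U605.DD

/-- The incidence vector of the vertex `v` over GF(2): the coordinate of an edge is the number of
its ends which are `v`, modulo 2 (so loops give 0). -/
def star {V E : Type} [DecidableEq V] (src dst : E → V) (v : V) : E → ZMod 2 :=
  fun e => (if src e = v then 1 else 0) + (if dst e = v then 1 else 0)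

/-- The vectors `vec e` represent the cographic matroid of the graph: the linear relations between
them are exactly the elements of the cut space, which is spanned by the incidence vectors. -/
def RepresentsCographic {V E : Type} [DecidableEq V] [Fintype E] (src dst : E → V) {n : ℕ}
    (vec : E → Fin n → ZMod 2) : Prop :=
  ∀ x : E → ZMod 2, ∑ e, x e • vec e = 0 ↔
    x ∈ Submodule.span (ZMod 2) (Set.range (star src dst))

/-- The simple matroid represented by the set `S` of vectors over GF(2) is a 2-block: `S` has no
zero vector and no linear map to the plane over GF(2) is nonzero on all of `S`. -/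
def IsTwoBlock {n : ℕ} (S : Set (Fin n → ZMod 2)) : Prop :=
  (0 : Fin n → ZMod 2) ∉ S ∧
    ¬ ∃ L : (Fin n → ZMod 2) →ₗ[ZMod 2] (Fin 2 → ZMod 2), ∀ s ∈ S, L s ≠ 0

/-- `S` represents a tangential 2-block: it is a 2-block, and no proper minor without loops
(contract `C`, keep `T`) is a 2-block. This is the hypothesis of the frozen statement S10691. -/
def IsTangential {n : ℕ} (S : Set (Fin n → ZMod 2)) : Prop :=
  IsTwoBlock S ∧
    ∀ C T : Set (Fin n → ZMod 2), C ⊆ S → T ⊆ S → T ≠ S →
      (∀ t ∈ T, t ∉ Submodule.span (ZMod 2) C) →
      ∃ L : (Fin n → ZMod 2) →ₗ[ZMod 2] (Fin 2 → ZMod 2),
        (∀ c ∈ C, L c = 0) ∧ ∀ t ∈ T, L t ≠ 0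

/-- The cut space of the Petersen graph: vertices `0, ..., 9`, edges `0, ..., 14`. -/
def petersenCuts : Submodule (ZMod 2) (Fin 15 → ZMod 2) :=
  Submodule.span (ZMod 2) (Set.range (fun v : Fin 10 => fun k : Fin 15 =>
    if (![0,1,2,3,4,5,6,7,8,9,0,1,2,3,4] : Fin 15 → Fin 10) k = v ∨
       (![1,2,3,4,0,7,8,9,5,6,5,6,7,8,9] : Fin 15 → Fin 10) k = v
    then (1 : ZMod 2) else 0))

/-- Let `S` be a set of vectors over GF(2) which represents the cographic matroid of a graph
(parallel elements are represented by the same vector) which satisfies the condition.  If `S`
is a 2-block then `S` contains 15 different vectors which represent the cographic matroid of the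
Petersen graph; if `S` is a tangential 2-block then `S` is the cographic matroid of the Petersen
graph, in the form of the frozen statement S10691. -/
theorem result :
    ∀ (n : ℕ) (S : Set (Fin n → ZMod 2)) (V E : Type) [Fintype V] [DecidableEq V] [Fintype E]
      [DecidableEq E] (src dst : E → V) (vec : E → Fin n → ZMod 2),
      RepresentsCographic src dst vec → Set.range vec = S → NoWideSpread src dst →
      (IsTwoBlock S → ∃ t : Fin 15 → Fin n → ZMod 2,
        Set.range t ⊆ S ∧ Function.Injective t ∧
        ∀ x : Fin 15 → ZMod 2, ∑ k, x k • t k = 0 ↔ x ∈ petersenCuts) ∧
      (IsTangential S → ∃ ψ : (Fin 15 → ZMod 2) →ₗ[ZMod 2] (Fin n → ZMod 2),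
        LinearMap.ker ψ = petersenCuts ∧
        ⇑ψ '' Set.range (fun k : Fin 15 => (Pi.single k (1 : ZMod 2) : Fin 15 → ZMod 2)) = S) := by
  intro n S V E _ _ _ _ src dst vec hv hr h7
  have hd : TH362.TF.N1 src dst Finset.univ →
      TH362.TF.NZ src dst Finset.univ ∨ TH362.TF.PQ src dst Finset.univ :=
    fun hn => noMq_flow (noMq_of_spread h7) hn
  have main : IsTwoBlock S → ∃ t : Fin 15 → Fin n → ZMod 2,
        Set.range t ⊆ S ∧ Function.Injective t ∧
        ∀ x : Fin 15 → ZMod 2, ∑ k, x k • t k = 0 ↔ x ∈ petersenCuts := fun h =>
    R890.FF.blk1 (hv : TH676.Blk.RepCo src dst vec) hr hd h.1 h.2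
  refine ⟨main, ?_⟩
  rintro ⟨h2, htan⟩
  obtain ⟨t, ht, _, hx⟩ := main h2
  exact R890.FF.blk2 htan ht hx

end Pool.Agent.Results.MP_aa6b05_co.SpreadSets
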