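import Mathlib
import Pool.Agent.Y642.RN.A
import Pool.Agent.U513.TH.Class

set_option autoImplicit false

/-!
# Cographic tangential 2-blocks: small circuits, paths or theta graphs (MP_aa6b05_co)

Tutte's tangential 2-block conjecture holds for the cographic matroids of the graphs which satisfy the
condition below: every 2-block over GF(2) of this kind has a RESTRICTION `M*(P₁₀)` (no contraction
is needed), and if it is tangential it is `M*(P₁₀)`.

The condition is one of the following; the order, the degrees and the connectivity of `G` are
arbitrary.
* no circuit of `G` has more than fifteen vertices;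
* no path of `G` has more than sixteen vertices;
* (this includes both) `G` contains no theta graph with at least 17 vertices which contains a circuit
  with at least 16 vertices.  A theta graph consists of two vertices and three paths between them
  which have no common inner vertices.

Proof.  Theta graphs of a contraction of disjoint connected vertex sets lift to theta graphs of `G`
in which the three paths are not shorter (`U513/TH/Lift`): the three ends of the paths in a
contracted set are joined by a tripod.  A minimal contraction `H` of `G` without nowhere-zero 4-flow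
and without Petersen quotient has no circuits with at most four vertices, minimum degree at least
three and no separating vertex, apart from isolated vertices, and it has at least 18 vertices of odd
degree (library).  New: a graph with these properties has a circuit with at least sixteen vertices.
If a longest circuit has fourteen or fifteen vertices, the graph contains it together with further
ears, where the next ear starts at a vertex of degree two of the present subgraph or, if there is
none, has new vertices.  A search over all ears shows that there is no such graph; the certificate of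
the search, which also uses that subgraphs which are excluded already do not occur, is checked by the
kernel (`U513/C15`).  For shorter circuits this is the theorem on circumference thirteen of the
library.
The translation to blocks is the one of the starting files (`TH676/Blk`, `Y642/RN`).
-/

namespace Pool.Agent.Results.MP_aa6b05_co.ThetaGraphs

/-- The incidence vector of the vertex `v` over GF(2): the coordinate of an edge is the number of
its ends which are `v`, modulo 2 (so loops give 0). -/
def star {V E : Type} [DecidableEq V] (src dst : E → V) (v : V) : E → ZMod 2 :=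
  fun e => (if src e = v then 1 else 0) + (if dst e = v then 1 else 0)

/-- The vectors `vec e` represent the cographic matroid of the graph: the linear relations between
them are exactly the elements of the cut space, which is spanned by the incidence vectors. -/
def RepresentsCographic {V E : Type} [DecidableEq V] [Fintype E] (src dst : E → V) {n : ℕ}
    (vec : E → Fin n → ZMod 2) : Prop :=
  ∀ x : E → ZMod 2, ∑ e, x e • vec e = 0 ↔
    x ∈ Submodule.span (ZMod 2) (Set.range (star src dst))

/-- The simple matroid represented by the set `S` of vectors over GF(2) is a 2-block: `S` has no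
zero vector and no linear map to the plane over GF(2) is nonzero on all of `S`. -/
def IsTwoBlock {n : ℕ} (S : Set (Fin n → ZMod 2)) : Prop :=
  (0 : Fin n → ZMod 2) ∉ S ∧
    ¬ ∃ L : (Fin n → ZMod 2) →ₗ[ZMod 2] (Fin 2 → ZMod 2), ∀ s ∈ S, L s ≠ 0

/-- `S` represents a tangential 2-block: it is a 2-block, and no proper minor without loops
(contract `C`, keep `T`) is a 2-block. This is the hypothesis of the frozen statement S10691. -/
def IsTangential {n : ℕ} (S : Set (Fin n → ZMod 2)) : Prop :=
  IsTwoBlock S ∧
    ∀ C T : Set (Fin n → ZMod 2), C ⊆ S → T ⊆ S → T ≠ S →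
      (∀ t ∈ T, t ∉ Submodule.span (ZMod 2) C) →
      ∃ L : (Fin n → ZMod 2) →ₗ[ZMod 2] (Fin 2 → ZMod 2),
        (∀ c ∈ C, L c = 0) ∧ ∀ t ∈ T, L t ≠ 0

/-- The cut space of the Petersen graph: vertices `0, ..., 9`, edges `0, ..., 14`. -/
def petersenCuts : Submodule (ZMod 2) (Fin 15 → ZMod 2) :=
  Submodule.span (ZMod 2) (Set.range (fun v : Fin 10 => fun k : Fin 15 =>
    if (![0,1,2,3,4,5,6,7,8,9,0,1,2,3,4] : Fin 15 → Fin 10) k = v ∨
       (![1,2,3,4,0,7,8,9,5,6,5,6,7,8,9] : Fin 15 → Fin 10) k = v
    then (1 : ZMod 2) else 0))

/-- Let `S` be a set of vectors over GF(2) which represents the cographic matroid of a graph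
(parallel elements are represented by the same vector).  Suppose that the graph satisfies
the condition.  If `S` is a 2-block then `S` contains 15 different vectors which represent the
cographic matroid of the Petersen graph; if `S` is a tangential 2-block then `S` is the cographic
matroid of the Petersen graph, in the form of the frozen statement S10691. -/
theorem result :
    ∀ (n : ℕ) (S : Set (Fin n → ZMod 2)) (V E : Type) [Fintype V] [DecidableEq V] [Fintype E]
      [DecidableEq E] (src dst : E → V) (vec : E → Fin n → ZMod 2),
      RepresentsCographic src dst vec → Set.range vec = S →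
      U513.TH.Condition src dst →
      (IsTwoBlock S → ∃ t : Fin 15 → Fin n → ZMod 2,
        Set.range t ⊆ S ∧ Function.Injective t ∧
        ∀ x : Fin 15 → ZMod 2, ∑ k, x k • t k = 0 ↔ x ∈ petersenCuts) ∧
      (IsTangential S → ∃ ψ : (Fin 15 → ZMod 2) →ₗ[ZMod 2] (Fin n → ZMod 2),
        LinearMap.ker ψ = petersenCuts ∧
        ⇑ψ '' Set.range (fun k : Fin 15 => (Pi.single k (1 : ZMod 2) : Fin 15 → ZMod 2)) = S) := by
  classical
  intro n S V E _ _ _ _ src dst vec hv hr hT
  have hv' : TH676.Blk.RepCo src dst vec := hv
  have hPC : TH676.Blk.PC = petersenCuts := rfl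
  have main : IsTwoBlock S → ∃ t : Fin 15 → Fin n → ZMod 2,
        Set.range t ⊆ S ∧ Function.Injective t ∧
        ∀ x : Fin 15 → ZMod 2, ∑ k, x k • t k = 0 ↔ x ∈ TH676.Blk.PC := by
    rintro ⟨hz, hL⟩
    have h0 : ∀ e, vec e ≠ 0 := by
      intro e he
      apply hz
      rw [← hr, ← he]
      exact ⟨e, rfl⟩
    have hbr := hv'.br h0
    have hN1 := Y642.RN.n1_of hbr
    have hnz : ¬ TH499.TF.NZ src dst := by
      intro h
      obtain ⟨L, hL'⟩ := hv'.map h
      apply hL
      refine ⟨L, fun s hs => ?_⟩
      rw [← hr] at hs
      obtain ⟨e, rfl⟩ := hs
      exact hL' e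
    have hPM : TH362.Multi.ContractsToPetersen src dst := by
      rcases U513.TH.flow src dst hN1 (U513.TH.NoTheta.of hT) with h | h
      · exact absurd (Y642.RN.nz_of h) hnz
      · exact TH362.TF.contracts src dst hN1 h
    obtain ⟨ed, hx⟩ := Y642.RN.restr hv' hPM
    refine ⟨fun k => vec (ed k), ?_, ?_, hx⟩
    · rintro _ ⟨k, rfl⟩
      rw [← hr]
      exact ⟨ed k, rfl⟩
    · intro k l hkl
      by_contra hne
      apply TH676.Blk.pair_not_mem k l hne
      rw [← hx]
      simp only [Pi.add_apply, add_smul]
      rw [Finset.sum_add_distrib]
      simp only [Pi.single_apply, ite_smul, one_smul, zero_smul, Finset.sum_ite_eq',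
        Finset.mem_univ, if_true]
      have h3 : vec (ed k) = vec (ed l) := hkl
      rw [h3]
      funext i
      exact CharTwo.add_self_eq_zero _
  refine ⟨main, ?_⟩
  rintro ⟨h2, htan⟩
  obtain ⟨t, ht, hinj, hx⟩ := main h2
  have hsum1 : ∀ k, ∑ m, (Pi.single k 1 : Fin 15 → ZMod 2) m • t m = t k := by
    intro k
    simp only [Pi.single_apply, ite_smul, one_smul, zero_smul, Finset.sum_ite_eq',
      Finset.mem_univ, if_true]
  have hsp : ∀ k, t k ∉ Submodule.span (ZMod 2) (∅ : Set (Fin n → ZMod 2)) := by
    intro k hk
    rw [Submodule.span_empty, Submodule.mem_bot] at hk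
    apply TH676.Blk.single_not_mem k
    rw [← hx, hsum1]
    exact hk
  have hTS : Set.range t = S := by
    by_contra hne
    obtain ⟨L, _, hL2⟩ := htan ∅ (Set.range t) (Set.empty_subset _) ht hne (by
      rintro _ ⟨k, rfl⟩
      exact hsp k)
    obtain ⟨k, hk⟩ := TH676.Blk.pet_flow (fun k => ((L (t k)) 0, (L (t k)) 1)) (by
      intro x hxP
      have h4 : L (∑ k, x k • t k) = 0 := by
        rw [(hx x).mpr hxP, map_zero]
      rw [map_sum] at h4
      simp only [map_smul] at h4
      have h5 := congrFun h4 0
      have h6 := congrFun h4 1
      rw [Finset.sum_apply] at h5 h6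
      refine Prod.ext ?_ ?_
      · rw [Prod.fst_sum]
        exact h5
      · rw [Prod.snd_sum]
        exact h6)
    apply hL2 (t k) ⟨k, rfl⟩
    funext i
    fin_cases i
    · exact congrArg Prod.fst hk
    · exact congrArg Prod.snd hk
  refine ⟨Fintype.linearCombination (ZMod 2) t, ?_, ?_⟩
  · ext x
    rw [LinearMap.mem_ker, Fintype.linearCombination_apply, ← hPC, ← hx]
  · ext s
    rw [← hTS]
    constructor
    · rintro ⟨_, ⟨k, rfl⟩, rfl⟩
      refine ⟨k, ?_⟩
      rw [Fintype.linearCombination_apply]
      exact (hsum1 k).symm
    · rintro ⟨k, rfl⟩
      refine ⟨_, ⟨k, rfl⟩, ?_⟩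
      rw [Fintype.linearCombination_apply]
      exact hsum1 k

end Pool.Agent.Results.MP_aa6b05_co.ThetaGraphs
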