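import Pool.Agent.R890.FF.Blk
import Pool.Agent.U875.TP.Class

/-!
# Cographic 2-blocks: tight partitions (MP_aa6b05_co)

Let `S` represent over GF(2) the cographic matroid `M*(G)` of a graph `G` which satisfies one of the
following conditions.  If `S` is a 2-block then `S` has a restriction `M*(P₁₀)`, and if it is
tangential it is `M*(P₁₀)`.
* every quotient of `G` (vertices are identified) with at least 18 vertices of odd degree is reducible:
  it has a vertex of degree two (loops not counted), a triangle, a circuit of length four, a set of
  `k ≥ 2` vertices which spans at least `2 k - 2` edges, a cut with at most three edges and edges on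
  both sides, or a separating vertex;
* of three edges and a vertex always two are close: equal, with a common end, joined by an edge or by
  two different walks with two edges; for example if the underlying simple graph does not contain three
  edges and a vertex as an induced subgraph;
* no nine edges are pairwise disjoint.

Proof.  Let `H` be a quotient of `G` without nowhere-zero 4-flow and without Petersen quotient such
that all proper quotients of `H` have a flow.  The starting library shows that `H` has at least 18
vertices of odd degree, no vertex with one or two edges, no circuit of length at most four, and that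
`k ≥ 2` vertices of `H` span at most `2 k - 3` edges.  New here: if a cut of `H` has at most three
edges then one side spans no edge (the flows of the two quotients in which one side is one vertex
agree on the cut up to an automorphism of the group), and `H` has no separating vertex; so `H` is not
reducible.  New as well: a graph with minimum degree at least three, at least 18 vertices and no
circuit of length at most four has three edges and a vertex which are pairwise far from each other
(`U875/TP/Edges.lean`): otherwise the maximum degree is three, and after the deletion of two far
edges and their neighbours an edge with its four neighbours remains.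
Hence `G` (which has no isthmus and no nowhere-zero 4-flow, as `S` is a 2-block) has a Petersen
quotient, and the translation to blocks is `R890/FF/Blk.lean`.
-/

set_option autoImplicit false

namespace Pool.Agent.Results.MP_aa6b05_co.TightPartitions

open Finset Pool.Agent.U875.TP

/-- The incidence vector of the vertex `v` over GF(2): the coordinate of an edge is the number of
its ends which are `v`, modulo 2 (so loops give 0). -/
def star {V E : Type} [DecidableEq V] (src dst : E → V) (v : V) : E → ZMod 2 :=
  fun e => (if src e = v then 1 else 0) + (if dst e = v then 1 else 0)

/-- The vectors `vec e` represent the cographic matroid of the graph: the linear relations between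
them are exactly the elements of the cut space, which is spanned by the incidence vectors. -/
def RepresentsCographic {V E : Type} [DecidableEq V] [Fintype E] (src dst : E → V) {n : ℕ}
    (vec : E → Fin n → ZMod 2) : Prop :=
  ∀ x : E → ZMod 2, ∑ e, x e • vec e = 0 ↔
    x ∈ Submodule.span (ZMod 2) (Set.range (star src dst))

/-- The simple matroid represented by the set `S` of vectors over GF(2) is a 2-block: `S` has no
zero vector and no linear map to the plane over GF(2) is nonzero on all of `S`. -/
def IsTwoBlock {n : ℕ} (S : Set (Fin n → ZMod 2)) : Prop :=
  (0 : Fin n → ZMod 2) ∉ S ∧
    ¬ ∃ L : (Fin n → ZMod 2) →ₗ[ZMod 2] (Fin 2 → ZMod 2), ∀ s ∈ S, L s ≠ 0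

/-- `S` represents a tangential 2-block: it is a 2-block, and no proper minor without loops
(contract `C`, keep `T`) is a 2-block. This is the hypothesis of the frozen statement S10691. -/
def IsTangential {n : ℕ} (S : Set (Fin n → ZMod 2)) : Prop :=
  IsTwoBlock S ∧
    ∀ C T : Set (Fin n → ZMod 2), C ⊆ S → T ⊆ S → T ≠ S →
      (∀ t ∈ T, t ∉ Submodule.span (ZMod 2) C) →
      ∃ L : (Fin n → ZMod 2) →ₗ[ZMod 2] (Fin 2 → ZMod 2),
        (∀ c ∈ C, L c = 0) ∧ ∀ t ∈ T, L t ≠ 0

/-- The cut space of the Petersen graph: vertices `0, ..., 9`, edges `0, ..., 14`. -/
def petersenCuts : Submodule (ZMod 2) (Fin 15 → ZMod 2) :=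
  Submodule.span (ZMod 2) (Set.range (fun v : Fin 10 => fun k : Fin 15 =>
    if (![0,1,2,3,4,5,6,7,8,9,0,1,2,3,4] : Fin 15 → Fin 10) k = v ∨
       (![1,2,3,4,0,7,8,9,5,6,5,6,7,8,9] : Fin 15 → Fin 10) k = v
    then (1 : ZMod 2) else 0))

/-- One of the conditions holds: every quotient with at least 18 vertices with an odd number of
boundary edges is reducible, or of three edges (not loops) and a vertex always two are close, or no
nine edges are pairwise disjoint. -/
def Condition {V E : Type} [Fintype V] [DecidableEq V] [Fintype E] [DecidableEq E]
    (s t : E → V) : Prop :=
  QuotientsReducible s t ∨ ThreeClose s t ∨ (∀ M : Finset E, IsMatching s t M → M.card ≤ 8)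

/-- under each of the conditions no quotient is minimal -/
theorem noMq {V E : Type} [Fintype V] [DecidableEq V] [Fintype E] [DecidableEq E]
    {s t : E → V} (h : Condition s t) : NoMq s t := by
  rcases h with h | h | h
  · exact noMq_of_quotients h
  · exact noMq_of_three h
  · exact noMq_of_matching h

/-- Let `S` be a set of vectors over GF(2) which represents the cographic matroid of a graph
(parallel elements are represented by the same vector) which satisfies one of the conditions.  If `S`
is a 2-block then `S` contains 15 different vectors which represent the cographic matroid of the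
Petersen graph; if `S` is a tangential 2-block then `S` is the cographic matroid of the Petersen
graph, in the form of the frozen statement S10691. -/
theorem result :
    ∀ (n : ℕ) (S : Set (Fin n → ZMod 2)) (V E : Type) [Fintype V] [DecidableEq V] [Fintype E]
      [DecidableEq E] (src dst : E → V) (vec : E → Fin n → ZMod 2),
      RepresentsCographic src dst vec → Set.range vec = S → Condition src dst →
      (IsTwoBlock S → ∃ t : Fin 15 → Fin n → ZMod 2,
        Set.range t ⊆ S ∧ Function.Injective t ∧
        ∀ x : Fin 15 → ZMod 2, ∑ k, x k • t k = 0 ↔ x ∈ petersenCuts) ∧
      (IsTangential S → ∃ ψ : (Fin 15 → ZMod 2) →ₗ[ZMod 2] (Fin n → ZMod 2),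
        LinearMap.ker ψ = petersenCuts ∧
        ⇑ψ '' Set.range (fun k : Fin 15 => (Pi.single k (1 : ZMod 2) : Fin 15 → ZMod 2)) = S) := by
  intro n S V E _ _ _ _ src dst vec hv hr h7
  have hd : TH362.TF.N1 src dst Finset.univ →
      TH362.TF.NZ src dst Finset.univ ∨ TH362.TF.PQ src dst Finset.univ :=
    fun hn => noMq_flow (noMq h7) hn
  have main : IsTwoBlock S → ∃ t : Fin 15 → Fin n → ZMod 2,
        Set.range t ⊆ S ∧ Function.Injective t ∧
        ∀ x : Fin 15 → ZMod 2, ∑ k, x k • t k = 0 ↔ x ∈ petersenCuts := fun h =>
    R890.FF.blk1 (hv : TH676.Blk.RepCo src dst vec) hr hd h.1 h.2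
  refine ⟨main, ?_⟩
  rintro ⟨h2, htan⟩
  obtain ⟨t, ht, _, hx⟩ := main h2
  exact R890.FF.blk2 htan ht hx

end Pool.Agent.Results.MP_aa6b05_co.TightPartitions
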